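import Pool.Agent.N132.IX.StmDefs
import Pool.Agent.Y133.Half.Main2

/-!
# Project IX, part L1: growth of the ranks of idempotents
-/

set_option autoImplicit false
set_option linter.all false

open CategoryTheory AlgebraicGeometry

universe u v w

namespace Pool.Agent.N803.IXT

open Module Filter Topology
open Pool.Agent.H914 Pool.Agent.H914.VarClass Pool.Agent.H914.VarClass.Obj
  Pool.Agent.H914.WeilCohomology Pool.Agent.Y133.Half Pool.Agent.Y133.Half.Sys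

variable {k : Type u} [Field k] {𝒱 : VarClass k} {ops : CycleOps 𝒱}
  {W : WeilCohomology.{u, v} ops} {X Y Z P Q V : 𝒱.Obj} (S : Sys W)

/-- The isomorphism `X^(m₀+1) × (X^(l+1) × X^(l+1)) ≅ X^(m₀+2l+3)`. -/
noncomputable def phi (X : 𝒱.Obj) (m₀ l : ℕ) :
    (pw X m₀).prod ((pw X l).prod (pw X l)) ≅ pw X (m₀ + (l + l + 1) + 1) :=
  prodCongr (Iso.refl _) (pwAdd X l l) ≪≫ pwAdd X m₀ (l + l + 1)

/-- The comparison function. -/
noncomputable def dd (X : 𝒱.Obj) (m₀ l : ℕ) : ℕ :=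
  finrank W.K (W.H X) ^ (m₀ + 1) * S.al X l

lemma a_le_dd (m₀ l : ℕ) : S.a (pw X (m₀ + (l + l + 1) + 1)) ≤ dd S X m₀ l := by
  rw [← S.a_iso (phi X m₀ l), dd, ← finrank_pw]
  exact S.a_le _ _

lemma one_comp : (1 : Module.End W.K (W.H P)) ∘ₗ (1 : Module.End W.K (W.H P)) = 1 := rfl

lemma ext_idem {G : Module.End W.K (W.H Q)} (hGG : G ∘ₗ G = G) :
    (extOp W G (1 : Module.End W.K (W.H P))) ∘ₗ extOp W G 1 = extOp W G 1 := by
  have := extOp_mul (W := W) G G (1 : Module.End W.K (W.H P)) 1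
  change extOp W G 1 * extOp W G 1 = _
  rw [this, mul_one]
  change extOp W (G ∘ₗ G) 1 = _
  rw [hGG]

lemma r_le_dd {G : Module.End W.K (W.H Q)} (hG : G ∈ S.Op Q Q) (hGG : G ∘ₗ G = G) (m₀ l : ℕ) :
    S.r Q G (pw X (m₀ + (l + l + 1) + 1)) ≤ finrank W.K (LinearMap.range G) * dd S X m₀ l := by
  rw [← S.r_iso G (phi X m₀ l), ← S.r_assoc]
  refine (S.r_le_rank (Op.ext hG Op.id) (ext_idem hGG) (pw X l)).trans ?_
  have h4 : finrank W.K (LinearMap.range (extOp W G (1 : Module.End W.K (W.H (pw X m₀))))) =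
      finrank W.K (LinearMap.range G) * finrank W.K (W.H (pw X m₀)) := by
    rw [finrank_extOp hGG one_comp, Sys.rank_one]
  change finrank W.K (LinearMap.range (extOp W G (1 : Module.End W.K (W.H (pw X m₀))))) *
    S.al X l ≤ _
  rw [h4, finrank_pw, dd, mul_assoc]

/-- The lower bound for an idempotent on an object isomorphic to a power of the same parity. -/
lemma r_ge_dd (h : Pool.Agent.N132.IX.Growth S X) (hX : 0 < finrank W.K (W.H X))
    {G : Module.End W.K (W.H Q)} (hG : G ∈ S.Op Q Q) (hGG : G ∘ₗ G = G) {q : ℕ}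
    (θ : Q ≅ pw X q) {m₀ : ℕ} (hq : q % 2 = m₀ % 2) {δ : ℝ} (hδ : 0 < δ) :
    ∃ l₀ : ℕ, ∀ l ≥ l₀, ((finrank W.K (LinearMap.range G) : ℝ) - δ) * dd S X m₀ l ≤
      S.r Q G (pw X (m₀ + (l + l + 1) + 1)) := by
  set b := finrank W.K (W.H X) with hb
  have hb1 : (1 : ℝ) ≤ b := by exact_mod_cast hX
  obtain ⟨j, hj⟩ : ∃ j, q + m₀ + 2 = 2 * j := ⟨(q + m₀ + 2) / 2, by omega⟩
  have hB2 : (0 : ℝ) < (b : ℝ) ^ 2 := by positivity
  obtain ⟨c, hc0, hcB, hc⟩ := exists_close hB2 j hδ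
  obtain ⟨l₀, hl₀⟩ := h.hB c hc0 hcB
  refine ⟨l₀, fun l hl => ?_⟩
  have hpow := ratio_pow hc0 hl₀ j l hl
  have e1 : S.r Q G (pw X (m₀ + (l + l + 1) + 1)) =
      S.r (Q.prod (pw X m₀)) (extOp W G 1) ((pw X l).prod (pw X l)) := by
    rw [← S.r_iso G (phi X m₀ l), ← S.r_assoc]
  obtain ⟨h1, h2⟩ := Sys.finrank_compl (g := extOp W G (1 : Module.End W.K (W.H (pw X m₀))))
    (ext_idem hGG)
  have h3 := S.r_add_le (Z := (pw X l).prod (pw X l))
    (extOp W G (1 : Module.End W.K (W.H (pw X m₀)))) (1 - extOp W G 1)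
  rw [add_sub_cancel, Sys.r_one] at h3
  have h4 := S.r_le_rank (Submodule.sub_mem _ Op.id (Op.ext hG Op.id)) h1 (pw X l)
  have h5 : finrank W.K (LinearMap.range (extOp W G (1 : Module.End W.K (W.H (pw X m₀))))) =
      finrank W.K (LinearMap.range G) * finrank W.K (W.H (pw X m₀)) := by
    rw [finrank_extOp hGG one_comp, Sys.rank_one]
  have haQ : S.a ((Q.prod (pw X m₀)).prod ((pw X l).prod (pw X l))) = S.al X (l + j) := by
    rw [S.a_iso (prodCongr (prodCongr θ (Iso.refl _) ≪≫ pwAdd X q m₀) (Iso.refl _))]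
    exact S.a_pw X (by omega)
  have h6 : finrank W.K (W.H (Q.prod (pw X m₀))) = b ^ (2 * j) := by
    rw [Pool.Agent.Y133.Half.finrank_prod, finrank_iso θ, finrank_pw, finrank_pw, ← pow_add]
    congr 1
    omega
  rw [haQ] at h3
  change S.r _ _ _ ≤ finrank W.K (LinearMap.range (1 - extOp W G
    (1 : Module.End W.K (W.H (pw X m₀))))) * S.al X l at h4
  rw [h5, h6, finrank_pw] at h2
  rw [e1]
  set R := finrank W.K (LinearMap.range (1 - extOp W G (1 : Module.End W.K (W.H (pw X m₀)))))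
    with hR
  set ρ := finrank W.K (LinearMap.range G) with hρ
  have h7 : (S.al X (l + j) : ℝ) ≤ S.r (Q.prod (pw X m₀)) (extOp W G 1)
      ((pw X l).prod (pw X l)) + R * S.al X l := by
    exact_mod_cast h3.trans (Nat.add_le_add_left h4 _)
  have h8 : (R : ℝ) + ρ * (b : ℝ) ^ (m₀ + 1) = ((b : ℝ) ^ 2) ^ j := by
    rw [← pow_mul]
    exact_mod_cast h2
  have h9 : (0 : ℝ) ≤ S.al X l := Nat.cast_nonneg _
  have h10 : (dd S X m₀ l : ℝ) = (b : ℝ) ^ (m₀ + 1) * S.al X l := by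
    rw [dd]; push_cast; rfl
  have h11 : (1 : ℝ) ≤ (b : ℝ) ^ (m₀ + 1) := one_le_pow₀ hb1
  have h12 : ((b : ℝ) ^ 2) ^ j * S.al X l - δ * S.al X l ≤ c ^ j * S.al X l := by
    rw [← sub_mul]
    exact mul_le_mul_of_nonneg_right hc.le h9
  have h13 : ((b : ℝ) ^ 2) ^ j * S.al X l = (R + ρ * (b : ℝ) ^ (m₀ + 1)) * S.al X l := by
    rw [h8]
  have h14 : δ * S.al X l ≤ δ * ((b : ℝ) ^ (m₀ + 1) * S.al X l) := by
    apply mul_le_mul_of_nonneg_left _ hδ.le
    calc (S.al X l : ℝ) = 1 * S.al X l := (one_mul _).symm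
      _ ≤ _ := mul_le_mul_of_nonneg_right h11 h9
  rw [h10]
  nlinarith [h7, hpow, h12, h13, h14]

/-- Retracts. -/
lemma r_retract {i : W.H P →ₗ[W.K] W.H Q} (hi : i ∈ S.Op P Q) {π : W.H Q →ₗ[W.K] W.H P}
    (hπ : π ∈ S.Op Q P) {g : Module.End W.K (W.H P)} (hg : g ∈ S.Op P P) (Z : 𝒱.Obj) :
    S.r Q (i ∘ₗ g ∘ₗ π) Z ≤ S.r P g Z := by
  have hG : i ∘ₗ g ∘ₗ π ∈ S.Op Q Q := Op.comp hi (Op.comp hg hπ)
  rw [← S.rk_BO_r (Z := Z) (Op.ev hG), ← S.rk_BO_r (Z := Z) (Op.ev hg)]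
  let A : S.Op Z Q →ₗ[W.K] S.Op Z P :=
    (LinearMap.llcomp W.K (W.H Z) (W.H Q) (W.H P) π).restrict fun u hu => Op.comp hπ hu
  let B : S.Op Q Z →ₗ[W.K] S.Op P Z :=
    ((LinearMap.llcomp W.K (W.H P) (W.H Q) (W.H Z)).flip i).restrict fun u hu => Op.comp hu hi
  have h : S.BO Q Z (i ∘ₗ g ∘ₗ π) LinearMap.id = (S.BO P Z g LinearMap.id).compl₁₂ A B := by
    apply LinearMap.ext
    intro u
    apply LinearMap.ext
    intro v
    rw [LinearMap.compl₁₂_apply, Sys.BO_apply, Sys.BO_apply]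
    change LinearMap.trace W.K (W.H Q) (par (W.isInternal Q) ∘ₗ (i ∘ₗ g ∘ₗ π) ∘ₗ
      (u : W.H Z →ₗ[W.K] W.H Q) ∘ₗ LinearMap.id ∘ₗ (v : W.H Q →ₗ[W.K] W.H Z)) =
      LinearMap.trace W.K (W.H P) (par (W.isInternal P) ∘ₗ g ∘ₗ
        (π ∘ₗ (u : W.H Z →ₗ[W.K] W.H Q)) ∘ₗ LinearMap.id ∘ₗ ((v : W.H Q →ₗ[W.K] W.H Z) ∘ₗ i))
    have e1 : par (W.isInternal Q) ∘ₗ (i ∘ₗ g ∘ₗ π) ∘ₗ
      (u : W.H Z →ₗ[W.K] W.H Q) ∘ₗ LinearMap.id ∘ₗ (v : W.H Q →ₗ[W.K] W.H Z) =
        i ∘ₗ (par (W.isInternal P) ∘ₗ g ∘ₗ π ∘ₗ (u : W.H Z →ₗ[W.K] W.H Q) ∘ₗ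
          (v : W.H Q →ₗ[W.K] W.H Z)) := by
      have := (Op.ev hi).par_comm
      apply LinearMap.ext
      intro x
      exact congrArg (fun f : W.H P →ₗ[W.K] W.H Q => f (g (π ((u : W.H Z →ₗ[W.K] W.H Q)
        ((v : W.H Q →ₗ[W.K] W.H Z) x))))) this
    rw [e1, LinearMap.trace_comp_comm']
    rfl
  rw [h]
  exact rk_comp_le (A := S.Op Z P) (B := S.Op P Z) (A' := S.Op Z Q) (B' := S.Op Q Z) _ _ _

section parity

variable {l : W.H X} (hl : l ∈ S.C X) (hl1 : W.tr X l = 1)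

/-- The projection. -/
noncomputable def pr (P : 𝒱.Obj) (l : W.H X) : W.H (P.prod X) →ₗ[W.K] W.H P :=
  W.corr (W.push (Obj.lift (𝟙 (P.prod X)) (fst P X)) (W.map (snd P X) l))

lemma pr_apply (l : W.H X) (a : W.H (P.prod X)) :
    pr P l a = W.push (fst P X) (W.map (snd P X) l * a) := by
  rw [pr, corr_apply, ← W.push_mul, ← W.map_comp, ← W.push_comp, Obj.lift_fst, Obj.lift_snd,
    W.map_id]

include hl in
lemma pr_mem : pr P l ∈ S.Op (P.prod X) P := Op.corr (S.push _ (S.map _ hl))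

include hl hl1 in
lemma pr_map (x : W.H P) : pr P l (W.map (fst P X) x) = x := by
  rw [pr_apply, PH.even_comm (PH.map _ (S.even hl))]
  have := push_fst x l (S.even hl)
  rw [hl1, one_smul] at this
  exact this

include hl hl1 in
/-- The idempotent on `P × X`. -/
lemma lift_idem {g : Module.End W.K (W.H P)} (hg : g ∈ S.Op P P) (hgg : g ∘ₗ g = g) :
    ∃ G ∈ S.Op (P.prod X) (P.prod X), G ∘ₗ G = G ∧
      finrank W.K (LinearMap.range G) = finrank W.K (LinearMap.range g) ∧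
        ∀ Z, S.r (P.prod X) G Z ≤ S.r P g Z := by
  set i : W.H P →ₗ[W.K] W.H (P.prod X) := (W.map (fst P X)).toLinearMap with hi
  have him : i ∈ S.Op P (P.prod X) := Op.map (S := S) (fst P X)
  have hπi : ∀ x, pr P l (i x) = x := pr_map S hl hl1
  refine ⟨i ∘ₗ g ∘ₗ pr P l, Op.comp him (Op.comp hg (pr_mem S hl)), ?_, ?_,
    fun Z => r_retract S him (pr_mem S hl) hg Z⟩
  · apply LinearMap.ext
    intro x
    simp only [LinearMap.comp_apply]
    rw [hπi]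
    exact congrArg (fun f : Module.End W.K (W.H P) => i (f (pr P l x))) hgg
  · have hinj : Function.Injective i := fun x y hxy => by
      have := congrArg (pr P l) hxy
      rwa [hπi, hπi] at this
    have hsurj : Function.Surjective (pr P l) := fun x => ⟨i x, hπi x⟩
    have h1 : LinearMap.range (i ∘ₗ g ∘ₗ pr P l) = (LinearMap.range g).map i := by
      rw [LinearMap.range_comp, LinearMap.range_comp_of_range_eq_top _
        (LinearMap.range_eq_top.2 hsurj)]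
    rw [h1]
    exact (Submodule.equivMapOfInjective _ hinj _).finrank_eq.symm

/-- The lower bound for all parities. -/
lemma r_ge_all (h : Pool.Agent.N132.IX.Growth S X) (hX : 0 < finrank W.K (W.H X)) {m : ℕ}
    {g : Module.End W.K (W.H (pw X m))} (hg : g ∈ S.Op (pw X m) (pw X m)) (hgg : g ∘ₗ g = g)
    (m₀ : ℕ) {δ : ℝ} (hδ : 0 < δ) :
    ∃ l₀ : ℕ, ∀ l ≥ l₀, ((finrank W.K (LinearMap.range g) : ℝ) - δ) * dd S X m₀ l ≤
      S.r (pw X m) g (pw X (m₀ + (l + l + 1) + 1)) := by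
  by_cases hm : m % 2 = m₀ % 2
  · exact r_ge_dd S h hX hg hgg (Iso.refl _) hm hδ
  · obtain ⟨l, hl, hl1⟩ := h.lam
    obtain ⟨G, hG, hGG, hr, hle⟩ := lift_idem S hl hl1 hg hgg
    obtain ⟨l₀, hl₀⟩ := r_ge_dd S h hX hG hGG (q := m + 1) (Iso.refl _) (m₀ := m₀) (by omega) hδ
    refine ⟨l₀, fun l' hl' => ?_⟩
    have := hl₀ l' hl'
    rw [hr] at this
    exact this.trans (by exact_mod_cast hle _)

/-- The lower bound for an idempotent on `X` itself. -/
lemma r_ge_X (h : Pool.Agent.N132.IX.Growth S X) (hX : 0 < finrank W.K (W.H X))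
    {g : Module.End W.K (W.H X)} (hg : g ∈ S.Op X X) (hgg : g ∘ₗ g = g)
    (m₀ : ℕ) {δ : ℝ} (hδ : 0 < δ) :
    ∃ l₀ : ℕ, ∀ l ≥ l₀, ((finrank W.K (LinearMap.range g) : ℝ) - δ) * dd S X m₀ l ≤
      S.r X g (pw X (m₀ + (l + l + 1) + 1)) :=
  r_ge_all S h hX (m := 0) hg hgg m₀ hδ

end parity

section rankone

variable {l : W.H X} (hl : l ∈ S.C X) (hl1 : W.tr X l = 1)

lemma g0_apply (hl0 : l ∈ PH W X 0) (x : W.H X) :
    W.corr (xp W l (1 : W.H X)) x = W.tr X (l * x) • (1 : W.H X) := by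
  have h : W.corr (xp W l (1 : W.H X)) = (W.tr X ∘ₗ LinearMap.mulLeft W.K l).smulRight 1 := by
    apply gr_ext (W.isInternal X)
    intro i x hx
    rw [corr_xp l PH.one (PH.of hx)]
    simp
  rw [h]
  rfl

include hl hl1 in
/-- The rank of the part cut out by the idempotent of rank one. -/
lemma r_g0_le (Z : 𝒱.Obj) : S.r X (W.corr (xp W l (1 : W.H X))) Z ≤ S.a Z := by
  have hl0 := S.even hl
  have hext : ∀ c : W.H (X.prod Z), extOp W (W.corr (xp W l (1 : W.H X)))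
      (1 : Module.End W.K (W.H Z)) c =
      W.map (snd X Z) (W.push (snd X Z) (W.map (fst X Z) l * c)) := by
    intro c
    have h : extOp W (W.corr (xp W l (1 : W.H X))) (1 : Module.End W.K (W.H Z)) =
        (W.map (snd X Z)).toLinearMap ∘ₗ (W.push (snd X Z)) ∘ₗ
          LinearMap.mulLeft W.K (W.map (fst X Z) l) := by
      apply xp_ext
      intro i j x hx z hz
      rw [extOp_xp, g0_apply hl0, Module.End.one_apply]
      simp only [LinearMap.comp_apply, LinearMap.mulLeft_apply, AlgHom.toLinearMap_apply]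
      have e1 : W.map (fst X Z) l * xp W x z = W.map (fst X Z) (l * x) * W.map (snd X Z) z := by
        rw [xp, map_mul, mul_assoc]
      rw [e1, push_snd, map_smul, xp_smul_left, xp, map_one, one_mul]
    rw [h]
    rfl
  let A : S.C (X.prod Z) →ₗ[W.K] S.C Z :=
    (W.push (snd X Z) ∘ₗ LinearMap.mulLeft W.K (W.map (fst X Z) l)).restrict
      fun c hc => S.push _ (S.mul (S.map _ hl) hc)
  let B : S.C (X.prod Z) →ₗ[W.K] S.C Z :=
    (W.push (snd X Z)).restrict fun c hc => S.push _ hc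
  have h : S.F (X.prod Z) (extOp W (W.corr (xp W l (1 : W.H X))) 1) =
      (S.F Z 1).compl₁₂ A B := by
    apply LinearMap.ext
    intro c
    apply LinearMap.ext
    intro d
    rw [LinearMap.compl₁₂_apply, Sys.F_apply, Sys.F_apply, hext]
    change W.tr _ (W.map (snd X Z) (W.push (snd X Z) (W.map (fst X Z) l * (c : W.H _))) *
      (d : W.H _)) = W.tr Z ((W.push (snd X Z) (W.map (fst X Z) l * (c : W.H _))) *
        W.push (snd X Z) (d : W.H _))
    have hA : W.push (snd X Z) (W.map (fst X Z) l * (c : W.H _)) ∈ S.C Z :=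
      S.push _ (S.mul (S.map _ hl) c.2)
    rw [PH.even_comm (PH.map _ (S.even hA)), ← W.tr_push, PH.even_comm (S.even (S.push _ d.2))]
  rw [Sys.r, h]
  exact rk_comp_le _ _ _

end rankone

end Pool.Agent.N803.IXT

namespace Pool.Agent.N132.IX

open Module Filter Topology
open Pool.Agent.H914 Pool.Agent.H914.VarClass Pool.Agent.H914.VarClass.Obj
  Pool.Agent.H914.WeilCohomology Pool.Agent.W492.BB Pool.Agent.W550.Corr Pool.Agent.Y133.Half
open Pool.Agent.N803.IXT Pool.Agent.Y133.Half.Sys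

variable {k : Type u} [Field k] {𝒱 : VarClass k} {ops : CycleOps 𝒱}
  {W : WeilCohomology.{u, v} ops} {X Y Z P Q V : 𝒱.Obj}

/-- IX/L1. Growth of the ranks. -/
theorem tendsto_r (S : Sys W) (X : 𝒱.Obj) (h : Growth S X) (m : ℕ)
    {g : Module.End W.K (W.H (pw X m))} (hg : g ∈ S.Op (pw X m) (pw X m)) (hgg : g ∘ₗ g = g) :
    Tendsto (fun n => (S.r (pw X m) g (pw X n) : ℝ) / S.a (pw X n)) atTop
      (𝓝 (finrank W.K (LinearMap.range g))) := by
  obtain ⟨l, hl, hl1⟩ := h.lam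
  have h1 : (1 : W.H X) ≠ 0 := one_ne_zero_of (ne_zero_of_tr hl1)
  have hX : 0 < finrank W.K (W.H X) := by
    have : Nontrivial (W.H X) := ⟨⟨1, 0, h1⟩⟩
    exact Module.finrank_pos
  set ρ := finrank W.K (LinearMap.range g) with hρ
  -- the idempotent of rank one
  set g0 : Module.End W.K (W.H X) := W.corr (xp W l (1 : W.H X)) with hg0
  have hg0m : g0 ∈ S.Op X X := Op.corr (Sys.xp_mem_C S hl (S.one X))
  have hg0a : ∀ x, g0 x = W.tr X (l * x) • (1 : W.H X) := g0_apply (S.even hl)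
  have hg0g : g0 ∘ₗ g0 = g0 := by
    apply LinearMap.ext
    intro x
    rw [LinearMap.comp_apply, hg0a x, map_smul, hg0a 1, mul_one, hl1, one_smul]
  have hrank : finrank W.K (LinearMap.range g0) = 1 := by
    have : LinearMap.range g0 = Submodule.span W.K {(1 : W.H X)} := by
      apply le_antisymm
      · rintro _ ⟨x, rfl⟩
        rw [hg0a]
        exact Submodule.smul_mem _ _ (Submodule.mem_span_singleton_self _)
      · rw [Submodule.span_singleton_le_iff_mem]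
        exact ⟨1, by rw [hg0a, mul_one, hl1, one_smul]⟩
    rw [this]
    exact finrank_span_singleton h1
  have hapos : ∀ n, 0 < S.a (pw X n) := by
    intro n
    obtain ⟨m', hm', hm1⟩ := S.exists_lam hl hl1 n
    exact S.a_pos hm' hm1
  rw [Metric.tendsto_atTop]
  intro ε hε
  have hρ0 : (0 : ℝ) ≤ ρ := Nat.cast_nonneg _
  obtain ⟨δ, hδ0, hδ1, hδε, hδρ⟩ : ∃ δ : ℝ, 0 < δ ∧ δ < 1 ∧ δ < ε ∧ δ * (ρ + ε) < ε := by
    refine ⟨ε / (2 * (ρ + ε + 1)), by positivity, ?_, ?_, ?_⟩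
    · rw [div_lt_one (by positivity)]; nlinarith
    · rw [div_lt_iff₀ (by positivity)]; nlinarith
    · rw [div_mul_eq_mul_div, div_lt_iff₀ (by positivity)]; nlinarith
  have key : ∀ m₀ : ℕ, ∃ l₀ : ℕ, ∀ l ≥ l₀,
      |(S.r (pw X m) g (pw X (m₀ + (l + l + 1) + 1)) : ℝ) / S.a (pw X (m₀ + (l + l + 1) + 1)) -
        ρ| < ε := by
    intro m₀
    obtain ⟨l₁, hl₁⟩ := r_ge_all S h hX hg hgg m₀ hδ0
    obtain ⟨l₂, hl₂⟩ := r_ge_X S h hX hg0m hg0g m₀ hδ0
    refine ⟨max l₁ l₂, fun n hn => ?_⟩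
    have e1 := hl₁ n ((le_max_left _ _).trans hn)
    have e2 := hl₂ n ((le_max_right _ _).trans hn)
    rw [hrank, Nat.cast_one] at e2
    have e3 : (S.r X g0 (pw X (m₀ + (n + n + 1) + 1)) : ℝ) ≤
        S.a (pw X (m₀ + (n + n + 1) + 1)) := by
      exact_mod_cast r_g0_le S hl hl1 (pw X (m₀ + (n + n + 1) + 1))
    have e4 : (S.a (pw X (m₀ + (n + n + 1) + 1)) : ℝ) ≤ dd S X m₀ n := by
      exact_mod_cast a_le_dd S m₀ n
    have e5 : (S.r (pw X m) g (pw X (m₀ + (n + n + 1) + 1)) : ℝ) ≤ ρ * dd S X m₀ n := by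
      exact_mod_cast r_le_dd S hg hgg m₀ n
    have e6 : (0 : ℝ) < S.a (pw X (m₀ + (n + n + 1) + 1)) := by exact_mod_cast hapos _
    set a := (S.a (pw X (m₀ + (n + n + 1) + 1)) : ℝ) with ha
    set r := (S.r (pw X m) g (pw X (m₀ + (n + n + 1) + 1)) : ℝ) with hr
    set D := (dd S X m₀ n : ℝ) with hD
    have e7 : (1 - δ) * D ≤ a := e2.trans e3
    have e8 : 0 < D := lt_of_lt_of_le e6 e4
    have e9 : 0 ≤ r := Nat.cast_nonneg _
    rw [abs_lt]
    constructor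
    · rw [lt_sub_iff_add_lt, lt_div_iff₀ e6]
      rcases le_or_gt (ρ - δ : ℝ) 0 with hs | hs
      · have : (-ε + ρ) * a < 0 := by
          apply mul_neg_of_neg_of_pos _ e6
          linarith
        linarith
      · have : (ρ - δ : ℝ) * a ≤ (ρ - δ) * D := mul_le_mul_of_nonneg_left e4 hs.le
        nlinarith
    · rw [sub_lt_iff_lt_add, div_lt_iff₀ e6]
      have h2 : (ρ : ℝ) < (ρ + ε) * (1 - δ) := by nlinarith
      calc r ≤ ρ * D := e5
        _ < ((ρ + ε) * (1 - δ)) * D := mul_lt_mul_of_pos_right h2 e8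
        _ = (ρ + ε) * ((1 - δ) * D) := by ring
        _ ≤ (ρ + ε) * a := mul_le_mul_of_nonneg_left e7 (by linarith)
        _ = (ε + ρ) * a := by ring
  obtain ⟨l₀, h₀⟩ := key 0
  obtain ⟨l₁, h₁⟩ := key 1
  refine ⟨2 * (l₀ + l₁) + 4, fun n hn => ?_⟩
  rw [Real.dist_eq]
  rcases Nat.mod_two_eq_zero_or_one n with hn2 | hn2
  · obtain ⟨l', hl'⟩ : ∃ l', n = 0 + (l' + l' + 1) + 1 := ⟨(n - 2) / 2, by omega⟩
    rw [hl']
    exact h₀ l' (by omega)
  · obtain ⟨l', hl'⟩ : ∃ l', n = 1 + (l' + l' + 1) + 1 := ⟨(n - 3) / 2, by omega⟩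
    rw [hl']
    exact h₁ l' (by omega)

end Pool.Agent.N132.IX
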